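import Mathlib

/-!
# Theorem R, row LAP: the Laplace lemma

`K` is a compact space with a finite measure, `φ : K → ℂ` a continuous function with values in the
closed unit disc.  The kernels `(1 - z φ)^(-p-1)`, `z → 1-`, concentrate on `{φ = 1}`.
-/

open MeasureTheory Filter Topology

set_option autoImplicit false
set_option linter.unusedSectionVars false

namespace Pool.Agent.Lib.MP_361a6f_ag.RR

/-- `φ` takes the value one with a controlled phase, and its superlevel sets are not too small -/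
structure Peak {K : Type*} [TopologicalSpace K] [MeasurableSpace K] (μ : Measure K)
    (φ : K → ℂ) (p : ℕ) : Prop where
  cont : Continuous φ
  le : ∀ k, ‖φ k‖ ≤ 1
  phase : ∀ e : ℝ, 0 < e → ∃ d : ℝ, 0 < d ∧
    ∀ k, 1 - (φ k).re < d → |(φ k).im| ≤ e * (1 - (φ k).re)
  vol : ∃ c : ℝ, 0 < c ∧ ∀ r : ℝ, 0 < r → r ≤ 1 → c * r ^ p ≤ μ.real {k | 1 - (φ k).re < r}

namespace Lap

variable {K : Type*} [TopologicalSpace K] [CompactSpace K] [MeasurableSpace K] [BorelSpace K]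
  {μ : Measure K} [IsFiniteMeasure μ] {φ : K → ℂ} {p : ℕ}

/-- the kernel -/
noncomputable def lker (φ : K → ℂ) (p : ℕ) (z : ℝ) (k : K) : ℂ :=
  ((1 - (z : ℂ) * φ k) ^ (p + 1))⁻¹

theorem re_le {φ : K → ℂ} (hφ : ∀ k, ‖φ k‖ ≤ 1) (k : K) : (φ k).re ≤ 1 :=
  (Complex.re_le_norm _).trans (hφ k)

theorem eq_one {φ : K → ℂ} (hφ : ∀ k, ‖φ k‖ ≤ 1) {k : K} (h : (φ k).re = 1) : φ k = 1 := by
  have h1 := hφ k
  have h2 : ‖φ k‖ ^ 2 ≤ 1 := by
    have h0 := norm_nonneg (φ k)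
    nlinarith
  rw [← Complex.normSq_eq_norm_sq, Complex.normSq_apply, h] at h2
  have h3 : (φ k).im = 0 := by nlinarith [mul_self_nonneg (φ k).im]
  exact Complex.ext h h3

theorem re_bound {φ : K → ℂ} {z : ℝ} (k : K) (hz0 : 0 ≤ z) (hz : z ≤ 1)
    {d : ℝ} (hd : d ≤ 1 - (φ k).re) : min d 1 ≤ 1 - z * (φ k).re := by
  rcases le_or_gt 0 (φ k).re with h | h
  · refine (min_le_left _ _).trans ?_
    nlinarith
  · refine (min_le_right _ _).trans ?_
    nlinarith

theorem re_sub (φ : K → ℂ) (z : ℝ) (k : K) :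
    (1 - (z : ℂ) * φ k).re = 1 - z * (φ k).re := by
  simp

theorem norm_sub_ge (φ : K → ℂ) (z : ℝ) (k : K) :
    1 - z * (φ k).re ≤ ‖1 - (z : ℂ) * φ k‖ := by
  rw [← re_sub]
  exact Complex.re_le_norm _

theorem sub_pos' {φ : K → ℂ} (hφ : ∀ k, ‖φ k‖ ≤ 1) {z : ℝ} (k : K) (hz0 : 0 ≤ z) (hz : z < 1) :
    0 < 1 - z * (φ k).re := by
  have := re_le hφ k
  nlinarith

theorem sub_ne {φ : K → ℂ} (hφ : ∀ k, ‖φ k‖ ≤ 1) {z : ℝ} (k : K) (hz0 : 0 ≤ z) (hz : z < 1) :
    1 - (z : ℂ) * φ k ≠ 0 := by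
  intro h
  have h1 := norm_sub_ge φ z k
  rw [h, norm_zero] at h1
  exact absurd (sub_pos' hφ k hz0 hz) (not_lt.2 h1)

theorem cont_ker {φ : K → ℂ} (hc : Continuous φ) (hφ : ∀ k, ‖φ k‖ ≤ 1) (p : ℕ) {z : ℝ}
    (hz0 : 0 ≤ z) (hz : z < 1) : Continuous (lker φ p z) := by
  unfold lker
  refine Continuous.inv₀ (by fun_prop) fun k => ?_
  exact pow_ne_zero _ (sub_ne hφ k hz0 hz)

/-- the kernel is bounded away from `{φ = 1}` -/
theorem ker_le {φ : K → ℂ} (p : ℕ) {z : ℝ} (k : K) (hz0 : 0 ≤ z)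
    (hz : z ≤ 1) {d : ℝ} (hd0 : 0 < d) (hd : d ≤ 1 - (φ k).re) :
    ‖lker φ p z k‖ ≤ ((min d 1) ^ (p + 1))⁻¹ := by
  rw [lker, norm_inv, norm_pow]
  have h0 : 0 < min d 1 := lt_min hd0 one_pos
  refine inv_anti₀ (pow_pos h0 _) ?_
  exact pow_le_pow_left₀ h0.le ((re_bound k hz0 hz hd).trans (norm_sub_ge φ z k)) _

/-- a sector in which `w^(-a)` has positive real part -/
theorem sector (a : ℕ) : ∃ e : ℝ, 0 < e ∧ ∀ w : ℂ, 0 < w.re → |w.im| ≤ e * w.re →
    ‖(w ^ a)⁻¹‖ ≤ 2 * ((w ^ a)⁻¹).re := by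
  have hcont : ContinuousAt (fun t : ℝ => 2 * (((1 + (t : ℂ) * Complex.I) ^ a)⁻¹).re
      - ‖((1 + (t : ℂ) * Complex.I) ^ a)⁻¹‖) 0 := by
    have h1 : ContinuousAt (fun t : ℝ => ((1 + (t : ℂ) * Complex.I) ^ a)⁻¹) 0 := by
      refine ContinuousAt.inv₀ (by fun_prop) ?_
      simp
    exact (continuousAt_const.mul (Complex.continuous_re.continuousAt.comp h1)).sub h1.norm
  have h0 : 0 < (fun t : ℝ => 2 * (((1 + (t : ℂ) * Complex.I) ^ a)⁻¹).re
      - ‖((1 + (t : ℂ) * Complex.I) ^ a)⁻¹‖) 0 := by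
    simp
  obtain ⟨e, he, h⟩ := Metric.eventually_nhds_iff.1 (hcont.eventually_const_lt h0)
  refine ⟨e / 2, by positivity, fun w hw hw' => ?_⟩
  have ht : dist (w.im / w.re) 0 < e := by
    rw [Real.dist_eq, sub_zero, abs_div, abs_of_pos hw, div_lt_iff₀ hw]
    nlinarith
  have h2 := h ht
  have hw0 : (w.re : ℂ) ≠ 0 := by exact_mod_cast hw.ne'
  have e1 : w = (w.re : ℂ) * (1 + ((w.im / w.re : ℝ) : ℂ) * Complex.I) := by
    have : ((w.im / w.re : ℝ) : ℂ) = (w.im : ℂ) / (w.re : ℂ) := by push_cast; rfl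
    rw [this]
    field_simp
    exact (Complex.re_add_im w).symm
  have e2 : (w ^ a)⁻¹ = ((w.re ^ a)⁻¹ : ℝ)
      * ((1 + ((w.im / w.re : ℝ) : ℂ) * Complex.I) ^ a)⁻¹ := by
    conv_lhs => rw [e1]
    rw [mul_pow, mul_inv]
    push_cast
    rfl
  have hpos : 0 < (w.re ^ a)⁻¹ := by positivity
  rw [e2, Complex.re_ofReal_mul, norm_mul, Complex.norm_real, Real.norm_of_nonneg hpos.le]
  have h3 := h2.le
  nlinarith


theorem integrable_of_cont {E : Type*} [NormedAddCommGroup E] [SecondCountableTopology E]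
    {f : K → E} (hf : Continuous f) : Integrable f μ :=
  hf.integrable_of_hasCompactSupport (HasCompactSupport.of_compactSpace f)

/-- upper bound: the kernel has essentially positive real part -/
theorem int_le (hP : Peak μ φ p) : ∃ C : ℝ, 0 ≤ C ∧ ∀ z : ℝ, 0 ≤ z → z < 1 →
    ∫ k, ‖lker φ p z k‖ ∂μ ≤ 2 * (∫ k, lker φ p z k ∂μ).re + C := by
  obtain ⟨e, he, hsec⟩ := sector (p + 1)
  obtain ⟨d, hd, hph⟩ := hP.phase e he
  set M : ℝ := ((min d 1) ^ (p + 1))⁻¹ with hM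
  have hM0 : 0 < M := by
    have : 0 < min d 1 := lt_min hd one_pos
    positivity
  refine ⟨3 * M * μ.real Set.univ, by positivity, fun z hz0 hz => ?_⟩
  have hc := cont_ker hP.cont hP.le p hz0 hz
  have hi : Integrable (lker φ p z) μ := integrable_of_cont hc
  have hpt : ∀ k, ‖lker φ p z k‖ ≤ 2 * (lker φ p z k).re + 3 * M := by
    intro k
    by_cases hk : 1 - (φ k).re < d
    · have h1 := hsec (1 - (z : ℂ) * φ k) (by rw [re_sub]; exact sub_pos' hP.le k hz0 hz) (by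
        have h2 := hph k hk
        have h3 : (1 - (z : ℂ) * φ k).im = -(z * (φ k).im) := by simp
        rw [h3, re_sub, abs_neg, abs_mul, abs_of_nonneg hz0]
        have h4 := abs_nonneg (φ k).im
        have h5 : z * |(φ k).im| ≤ z * (e * (1 - (φ k).re)) := mul_le_mul_of_nonneg_left h2 hz0
        nlinarith)
      rw [lker]
      linarith
    · have h1 := ker_le p k hz0 hz.le hd (not_lt.1 hk) (φ := φ)
      have h2 := Complex.abs_re_le_norm (lker φ p z k)
      have h3 := (abs_le.1 h2).1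
      rw [← hM] at h1
      linarith
  have hre : Integrable (fun k => (lker φ p z k).re) μ := hi.re
  have h1 : ∫ k, ‖lker φ p z k‖ ∂μ ≤ ∫ k, (2 * (lker φ p z k).re + 3 * M) ∂μ :=
    integral_mono hi.norm ((hre.const_mul 2).add (integrable_const _)) hpt
  rw [integral_add (hre.const_mul 2) (integrable_const _), integral_const, smul_eq_mul,
    integral_const_mul] at h1
  have h2 : ∫ k, (lker φ p z k).re ∂μ = (∫ k, lker φ p z k ∂μ).re := integral_re hi
  rw [h2] at h1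
  linarith

/-- lower bound: the total mass of the kernel tends to infinity -/
theorem int_ge (hP : Peak μ φ p) : ∃ c : ℝ, 0 < c ∧ ∃ z₀ : ℝ, z₀ < 1 ∧ 0 ≤ z₀ ∧
    ∀ z : ℝ, z₀ ≤ z → z < 1 → c / (1 - z) ≤ ∫ k, ‖lker φ p z k‖ ∂μ := by
  obtain ⟨d, hd, hph⟩ := hP.phase 1 one_pos
  obtain ⟨c, hc, hvol⟩ := hP.vol
  have hd' : 0 < min d 1 := lt_min hd one_pos
  refine ⟨c * (3 ^ (p + 1))⁻¹, by positivity, 1 - min d 1 / 2, by linarith, by
    have := min_le_right d 1
    linarith, fun z hz0' hz => ?_⟩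
  have hz0 : 0 ≤ z := by
    have := min_le_right d 1
    linarith
  set r := 1 - z with hr
  have hr0 : 0 < r := by rw [hr]; linarith
  have hrd : r < d := by
    have := min_le_left d 1
    linarith
  have hr1 : r ≤ 1 := by linarith
  have hcont := cont_ker hP.cont hP.le p hz0 hz
  have hi : Integrable (lker φ p z) μ := integrable_of_cont hcont
  have hsub : {k | 1 - (φ k).re < r} ⊆ {k | ((3 * r) ^ (p + 1))⁻¹ ≤ ‖lker φ p z k‖} := by
    intro k hk
    have hk' : 1 - (φ k).re < r := hk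
    have h1 : ‖1 - (z : ℂ) * φ k‖ ≤ 3 * r := by
      have e1 : 1 - (z : ℂ) * φ k = ((1 - z : ℝ) : ℂ) + (z : ℂ) * (((1 - (φ k).re : ℝ) : ℂ)
          - ((φ k).im : ℂ) * Complex.I) := by
        conv_lhs => rw [← Complex.re_add_im (φ k)]
        push_cast
        ring
      have h2 := hph k (hk'.trans hrd)
      have h0 : 0 ≤ 1 - (φ k).re := by linarith [re_le hP.le k]
      rw [e1]
      refine (norm_add_le _ _).trans ?_
      rw [Complex.norm_real, Real.norm_of_nonneg (by linarith), norm_mul, Complex.norm_real,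
        Real.norm_of_nonneg hz0]
      have h3 : ‖((1 - (φ k).re : ℝ) : ℂ) - ((φ k).im : ℂ) * Complex.I‖ ≤ 2 * r := by
        refine (norm_sub_le _ _).trans ?_
        rw [Complex.norm_real, Real.norm_of_nonneg h0, norm_mul, Complex.norm_I, mul_one,
          Complex.norm_real, Real.norm_eq_abs]
        linarith
      have h4 : z * ‖((1 - (φ k).re : ℝ) : ℂ) - ((φ k).im : ℂ) * Complex.I‖ ≤ 1 * (2 * r) :=
        mul_le_mul hz.le h3 (norm_nonneg _) zero_le_one
      linarith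
    show ((3 * r) ^ (p + 1))⁻¹ ≤ ‖lker φ p z k‖
    rw [lker, norm_inv, norm_pow]
    refine inv_anti₀ (pow_pos (norm_pos_iff.2 (sub_ne hP.le k hz0 hz)) _) ?_
    exact pow_le_pow_left₀ (norm_nonneg _) h1 _
  have h1 := mul_meas_ge_le_integral_of_nonneg (μ := μ) (f := fun k => ‖lker φ p z k‖)
    (Eventually.of_forall fun k => norm_nonneg _) hi.norm (((3 * r) ^ (p + 1))⁻¹)
  have h2 := measureReal_mono (μ := μ) hsub
  have h3 := hvol r hr0 hr1
  have h4 : 0 < ((3 * r) ^ (p + 1))⁻¹ := by positivity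
  have h5 : ((3 * r) ^ (p + 1))⁻¹ * (c * r ^ p) ≤ ∫ k, ‖lker φ p z k‖ ∂μ :=
    (mul_le_mul_of_nonneg_left (h3.trans h2) h4.le).trans h1
  refine le_trans (le_of_eq ?_) h5
  rw [mul_pow]
  field_simp
  ring

/-- the normalising integral -/
noncomputable def Z (μ : Measure K) (φ : K → ℂ) (p : ℕ) (z : ℝ) : ℂ := ∫ k, lker φ p z k ∂μ

theorem Z_large (hP : Peak μ φ p) : (∀ C : ℝ, ∃ z₀ : ℝ, z₀ < 1 ∧ 0 ≤ z₀ ∧ ∀ z : ℝ, z₀ ≤ z → z < 1 →
    C ≤ ‖Z μ φ p z‖ ∧ ∫ k, ‖lker φ p z k‖ ∂μ ≤ 4 * ‖Z μ φ p z‖) := by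
  intro C
  obtain ⟨C', hC', hle⟩ := int_le hP
  obtain ⟨c, hc, z₁, hz1, hz1', hge⟩ := int_ge hP
  set D : ℝ := 4 * (|C| + C' + 1) with hD
  have hD0 : 0 < D := by positivity
  refine ⟨max z₁ (1 - c / D), max_lt hz1 (by have : 0 < c / D := by positivity
                                             linarith), le_max_of_le_left hz1', ?_⟩
  intro z hz hz'
  have h1 := hge z ((le_max_left _ _).trans hz) hz'
  have h2 := hle z (hz1'.trans ((le_max_left _ _).trans hz)) hz'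
  have h3 : D ≤ c / (1 - z) := by
    have h4 := (le_max_right z₁ (1 - c / D)).trans hz
    rw [le_div_iff₀ (by linarith)]
    have h5 : 1 - z ≤ c / D := by linarith
    calc D * (1 - z) ≤ D * (c / D) := mul_le_mul_of_nonneg_left h5 hD0.le
      _ = c := by field_simp
  have h6 : (∫ k, lker φ p z k ∂μ).re ≤ ‖Z μ φ p z‖ := Complex.re_le_norm _
  have h7 := abs_nonneg C
  have h8 := le_abs_self C
  constructor <;> nlinarith

variable {W : Type*} [NormedAddCommGroup W] [NormedSpace ℂ W] [FiniteDimensional ℂ W]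

/-- the kernels average to the value on `{φ = 1}` -/
theorem avg (hP : Peak μ φ p) (H : ℝ → K → W) (w : W)
    (hH : ∀ z : ℝ, 0 ≤ z → z < 1 → Continuous (H z))
    (h : ∀ e : ℝ, 0 < e → ∃ d : ℝ, 0 < d ∧ ∃ C : ℝ, ∀ z : ℝ, 1 / 2 ≤ z → z < 1 → ∀ k,
      (1 - (φ k).re < d → ‖H z k - w‖ ≤ e) ∧ (d ≤ 1 - (φ k).re → ‖H z k - w‖ ≤ C)) :
    ∀ e : ℝ, 0 < e → ∃ z₀ : ℝ, z₀ < 1 ∧ 0 ≤ z₀ ∧ ∀ z : ℝ, z₀ ≤ z → z < 1 →
      ‖(Z μ φ p z)⁻¹ • (∫ k, lker φ p z k • H z k ∂μ) - w‖ ≤ e := by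
  have : ProperSpace W := FiniteDimensional.proper ℂ W
  have : CompleteSpace W := FiniteDimensional.complete ℂ W
  intro e he
  obtain ⟨d, hd, C, hC⟩ := h (e / 8) (by positivity)
  set M : ℝ := ((min d 1) ^ (p + 1))⁻¹ with hM
  have hM0 : 0 < M := by
    have : 0 < min d 1 := lt_min hd one_pos
    positivity
  obtain ⟨z₁, hz1, hz1', hL⟩ := Z_large hP (2 * (M * |C| * μ.real Set.univ + 1) / e)
  refine ⟨max z₁ (1 / 2), max_lt hz1 (by norm_num), le_max_of_le_left hz1', fun z hz hz' => ?_⟩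
  have hz2 : 1 / 2 ≤ z := (le_max_right _ _).trans hz
  have hz0 : 0 ≤ z := by linarith
  obtain ⟨h1, h2⟩ := hL z ((le_max_left _ _).trans hz) hz'
  have hZ0 : 0 < ‖Z μ φ p z‖ := lt_of_lt_of_le (by positivity) h1
  have hck := cont_ker hP.cont hP.le p hz0 hz'
  have hi : Integrable (lker φ p z) μ := integrable_of_cont hck
  have hcH := hH z hz0 hz'
  have hi1 : Integrable (fun k => lker φ p z k • H z k) μ := integrable_of_cont (hck.smul hcH)
  have hi2 : Integrable (fun k => lker φ p z k • (H z k - w)) μ :=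
    integrable_of_cont (hck.smul (hcH.sub continuous_const))
  have e1 : (Z μ φ p z)⁻¹ • (∫ k, lker φ p z k • H z k ∂μ) - w
      = (Z μ φ p z)⁻¹ • (∫ k, lker φ p z k • (H z k - w) ∂μ) := by
    have e2 : ∫ k, lker φ p z k • (H z k - w) ∂μ
        = (∫ k, lker φ p z k • H z k ∂μ) - (Z μ φ p z) • w := by
      have hi3 : Integrable (fun k => lker φ p z k • w) μ :=
        integrable_of_cont (hck.smul continuous_const)
      simp_rw [smul_sub]
      rw [integral_sub hi1 hi3, integral_smul_const]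
      rfl
    rw [e2, smul_sub, smul_smul, inv_mul_cancel₀ (norm_pos_iff.1 hZ0), one_smul]
  have hpt : ∀ k, ‖lker φ p z k • (H z k - w)‖ ≤ e / 8 * ‖lker φ p z k‖ + M * |C| := by
    intro k
    rw [norm_smul]
    by_cases hk : 1 - (φ k).re < d
    · have h3 := (hC z hz2 hz' k).1 hk
      have h4 := mul_le_mul_of_nonneg_left h3 (norm_nonneg (lker φ p z k))
      have h5 : 0 ≤ M * |C| := by positivity
      linarith
    · have h3 := (hC z hz2 hz' k).2 (not_lt.1 hk)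
      have h4 := ker_le p k hz0 hz'.le hd (not_lt.1 hk) (φ := φ)
      rw [← hM] at h4
      have h5 : ‖lker φ p z k‖ * ‖H z k - w‖ ≤ M * |C| :=
        mul_le_mul h4 (h3.trans (le_abs_self C)) (norm_nonneg _) hM0.le
      have h6 : 0 ≤ e / 8 * ‖lker φ p z k‖ := by positivity
      linarith
  have h3 : ‖∫ k, lker φ p z k • (H z k - w) ∂μ‖ ≤ e / 8 * ∫ k, ‖lker φ p z k‖ ∂μ
      + M * |C| * μ.real Set.univ := by
    refine (norm_integral_le_integral_norm _).trans ?_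
    have h4 : ∫ k, ‖lker φ p z k • (H z k - w)‖ ∂μ ≤ ∫ k, (e / 8 * ‖lker φ p z k‖ + M * |C|) ∂μ :=
      integral_mono hi2.norm ((hi.norm.const_mul _).add (integrable_const _)) hpt
    rw [integral_add (hi.norm.const_mul _) (integrable_const _), integral_const, smul_eq_mul,
      integral_const_mul] at h4
    linarith
  rw [e1, norm_smul, norm_inv, inv_mul_le_iff₀ hZ0]
  have h4 : 2 * (M * |C| * μ.real Set.univ + 1) ≤ e * ‖Z μ φ p z‖ := by
    rw [div_le_iff₀ he] at h1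
    linarith
  nlinarith

/-- a closed set of `K` on which `φ ≠ 1` has a positive distance -/
theorem exists_gap (hP : Peak μ φ p) {S : Set K} (hS : IsClosed S) (h : ∀ k ∈ S, φ k ≠ 1) :
    ∃ d : ℝ, 0 < d ∧ ∀ k ∈ S, d ≤ 1 - (φ k).re := by
  rcases S.eq_empty_or_nonempty with rfl | hne
  · exact ⟨1, one_pos, fun k hk => absurd hk (Set.notMem_empty k)⟩
  · have hc : ContinuousOn (fun k => 1 - (φ k).re) S :=
      (continuous_const.sub (Complex.continuous_re.comp hP.cont)).continuousOn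
    obtain ⟨k, hk, hmin⟩ := hS.isCompact.exists_isMinOn hne hc
    refine ⟨1 - (φ k).re, ?_, fun k' hk' => hmin hk'⟩
    have h1 := re_le hP.le k
    rcases h1.lt_or_eq with h2 | h2
    · linarith
    · exact absurd (eq_one hP.le h2) (h k hk)

theorem near (hP : Peak μ φ p) {F : K → W} (hF : Continuous F) {w : W}
    (h : ∀ k, φ k = 1 → F k = w) {e : ℝ} (he : 0 < e) : ∃ d : ℝ, 0 < d ∧
      ∀ k, 1 - (φ k).re < d → ‖F k - w‖ ≤ e := by
  have hS : IsClosed {k | e ≤ ‖F k - w‖} :=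
    isClosed_le continuous_const (hF.sub continuous_const).norm
  obtain ⟨d, hd, h1⟩ := exists_gap hP hS (fun k hk h2 => by
    have h3 : e ≤ ‖F k - w‖ := hk
    rw [h k h2, sub_self, norm_zero] at h3
    linarith)
  refine ⟨d, hd, fun k hk => ?_⟩
  by_contra h2
  exact absurd (h1 k (not_le.1 h2).le) (not_le.2 hk)

theorem exists_bound {F : K → W} (hF : Continuous F) : ∃ C : ℝ, ∀ k, ‖F k‖ ≤ C := by
  obtain ⟨C, hC⟩ := (isCompact_univ (X := K)).exists_bound_of_continuousOn hF.continuousOn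
  exact ⟨C, fun k => hC k (Set.mem_univ k)⟩

/-- the power series of the kernel -/
theorem hasSum_ker (hc : Continuous φ) (hφ : ∀ k, ‖φ k‖ ≤ 1) (p : ℕ) {z : ℝ} (hz0 : 0 ≤ z)
    (hz : z < 1) {F : K → W} (hF : Continuous F) :
    HasSum (fun d : ℕ => (((d + p).choose p : ℂ) * (z : ℂ) ^ d) • ∫ k, φ k ^ d • F k ∂μ)
      (∫ k, lker φ p z k • F k ∂μ) := by
  have : ProperSpace W := FiniteDimensional.proper ℂ W
  have : CompleteSpace W := FiniteDimensional.complete ℂ W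
  obtain ⟨C, hC⟩ := exists_bound hF
  have hsum : Summable (fun d : ℕ => ((d + p).choose p : ℝ) * z ^ d) :=
    summable_choose_mul_geometric_of_norm_lt_one p (by rwa [Real.norm_of_nonneg hz0])
  have h1 : HasSum (fun d : ℕ => ∫ k, (((d + p).choose p : ℂ) * (z : ℂ) ^ d * φ k ^ d) • F k ∂μ)
      (∫ k, lker φ p z k • F k ∂μ) := by
    refine hasSum_integral_of_dominated_convergence
      (bound := fun d _ => ((d + p).choose p : ℝ) * z ^ d * C) ?_ ?_ ?_ ?_ ?_
    · intro d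
      exact (integrable_of_cont (by fun_prop)).aestronglyMeasurable
    · intro d
      refine Eventually.of_forall fun k => ?_
      rw [norm_smul, norm_mul, norm_mul, norm_pow, norm_pow, Complex.norm_natCast,
        Complex.norm_real, Real.norm_of_nonneg hz0]
      have h2 : ‖φ k‖ ^ d ≤ 1 := pow_le_one₀ (norm_nonneg _) (hφ k)
      have h3 : 0 ≤ ((d + p).choose p : ℝ) * z ^ d := by positivity
      have h4 : ((d + p).choose p : ℝ) * z ^ d * ‖φ k‖ ^ d ≤ ((d + p).choose p : ℝ) * z ^ d := by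
        nlinarith
      exact mul_le_mul h4 (hC k) (norm_nonneg _) h3
    · exact Eventually.of_forall fun _ => hsum.mul_right C
    · exact integrable_const _
    · refine Eventually.of_forall fun k => ?_
      have h2 : ‖(z : ℂ) * φ k‖ < 1 := by
        rw [norm_mul, Complex.norm_real, Real.norm_of_nonneg hz0]
        have := hφ k
        have := norm_nonneg (φ k)
        nlinarith
      have h3 := hasSum_choose_mul_geometric_of_norm_lt_one p h2
      have h4 := h3.smul_const (F k)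
      rw [one_div] at h4
      refine h4.congr_fun ?_
      intro d
      rw [mul_pow, mul_assoc]
  refine h1.congr_fun ?_
  intro d
  rw [← integral_smul]
  refine integral_congr_ae (Eventually.of_forall fun k => ?_)
  simp only [smul_smul]

theorem ker_succ (φ : K → ℂ) (p : ℕ) (z : ℝ) (k : K) :
    lker φ (p + 1) z k = lker φ p z k * (1 - (z : ℂ) * φ k)⁻¹ := by
  rw [lker, lker, pow_succ _ (p + 1), mul_inv]

theorem inv_le {φ : K → ℂ} (hφ : ∀ k, ‖φ k‖ ≤ 1) {z : ℝ} (k : K) (hz2 : 1 / 2 ≤ z) (hz : z < 1) :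
    ‖(1 - (z : ℂ) * φ k)⁻¹‖ * (1 - (φ k).re) ≤ 2 := by
  have h0 := re_le hφ k
  have h1 := sub_pos' hφ k (by linarith) hz
  have h2 := norm_sub_ge φ z k
  have h3 : 0 < ‖1 - (z : ℂ) * φ k‖ := h1.trans_le h2
  rw [norm_inv, inv_mul_le_iff₀ h3]
  nlinarith

end Lap

open Lap

variable {K : Type*} [TopologicalSpace K] [CompactSpace K] [MeasurableSpace K] [BorelSpace K]
  {μ : Measure K} [IsFiniteMeasure μ] {φ : K → ℂ} {p : ℕ}
  {W : Type*} [NormedAddCommGroup W] [NormedSpace ℂ W] [FiniteDimensional ℂ W]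

/-- (L2), abstract form -/
theorem Peak.mem_span (hP : Peak μ φ p) {F : K → W} (hF : Continuous F) {w : W}
    (h : ∀ k, φ k = 1 → F k = w) :
    w ∈ Submodule.span ℂ (Set.range fun d : ℕ => ∫ k, φ k ^ d • F k ∂μ) := by
  set S := Submodule.span ℂ (Set.range fun d : ℕ => ∫ k, φ k ^ d • F k ∂μ) with hS
  have hcl : IsClosed (S : Set W) := S.closed_of_finiteDimensional
  obtain ⟨C, hC⟩ := exists_bound hF
  have havg := avg hP (fun _ => F) w (fun _ _ _ => hF) (fun e he => by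
    obtain ⟨d, hd, h1⟩ := near hP hF h he
    exact ⟨d, hd, C + ‖w‖, fun z _ _ k => ⟨h1 k, fun _ =>
      (norm_sub_le _ _).trans (by linarith [hC k])⟩⟩)
  refine hcl.closure_subset (Metric.mem_closure_iff.2 fun e he => ?_)
  obtain ⟨z₀, h1, h2, h3⟩ := havg (e / 2) (by positivity)
  refine ⟨(Z μ φ p z₀)⁻¹ • (∫ k, lker φ p z₀ k • F k ∂μ), ?_, ?_⟩
  · refine S.smul_mem _ ?_
    refine hcl.mem_of_tendsto (hasSum_ker hP.cont hP.le p h2 h1 hF) (Eventually.of_forall
      fun s => ?_)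
    exact S.sum_mem fun d _ => S.smul_mem _ (Submodule.subset_span ⟨d, rfl⟩)
  · rw [dist_comm, dist_eq_norm]
    exact (h3 z₀ le_rfl h1).trans_lt (by linarith)

/-- (L1), abstract form -/
theorem Peak.exists_eq_one (hP : Peak μ φ p) {ψ : K → ℂ} (hψ : Continuous ψ)
    (hψ1 : ∀ k, ‖ψ k‖ ≤ 1) (h : ∀ d : ℕ, ∫ k, ψ k ^ d ∂μ = ∫ k, φ k ^ d ∂μ) :
    ∃ k, ψ k = 1 := by
  by_contra hne
  push Not at hne
  -- the kernels of `ψ` are bounded
  have hb : ∃ C : ℝ, ∀ z : ℝ, 0 ≤ z → z < 1 → ∀ k, ‖lker ψ p z k‖ ≤ C := by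
    have hcont : ContinuousOn (fun x : ℝ × K => ‖1 - (x.1 : ℂ) * ψ x.2‖)
        (Set.Icc (0 : ℝ) 1 ×ˢ (Set.univ : Set K)) := by
      have : Continuous (fun x : ℝ × K => ‖1 - (x.1 : ℂ) * ψ x.2‖) := by fun_prop
      exact this.continuousOn
    rcases isEmpty_or_nonempty K with hK | ⟨⟨k₀⟩⟩
    · exact ⟨0, fun z _ _ k => (hK.false k).elim⟩
    obtain ⟨x, hx, hmin⟩ := (isCompact_Icc.prod isCompact_univ).exists_isMinOn
      (⟨(0, k₀), by simp⟩ : (Set.Icc (0 : ℝ) 1 ×ˢ (Set.univ : Set K)).Nonempty) hcont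
    have hx0 : 0 ≤ x.1 := hx.1.1
    have hx1 : x.1 ≤ 1 := hx.1.2
    have hpos : 0 < ‖1 - (x.1 : ℂ) * ψ x.2‖ := by
      rw [norm_pos_iff]
      intro h0
      have e1 : (x.1 : ℂ) * ψ x.2 = 1 := (sub_eq_zero.1 h0).symm
      have e2 : x.1 * ‖ψ x.2‖ = 1 := by
        have := congrArg norm e1
        rwa [norm_mul, Complex.norm_real, Real.norm_of_nonneg hx0, norm_one] at this
      have e3 : x.1 = 1 := by
        have := hψ1 x.2
        have := norm_nonneg (ψ x.2)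
        nlinarith
      rw [e3] at e1
      rw [Complex.ofReal_one, one_mul] at e1
      exact hne x.2 e1
    refine ⟨(‖1 - (x.1 : ℂ) * ψ x.2‖ ^ (p + 1))⁻¹, fun z hz0 hz k => ?_⟩
    rw [lker, norm_inv, norm_pow]
    refine inv_anti₀ (by positivity) (pow_le_pow_left₀ hpos.le ?_ _)
    exact hmin (show (z, k) ∈ Set.Icc (0 : ℝ) 1 ×ˢ (Set.univ : Set K) from
      ⟨⟨hz0, hz.le⟩, Set.mem_univ k⟩)
  obtain ⟨C, hC⟩ := hb
  obtain ⟨z₀, h1, h2, h3⟩ := Z_large hP (C * μ.real Set.univ + 1)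
  have h4 := (h3 z₀ le_rfl h1).1
  have e1 : Z μ φ p z₀ = ∫ k, lker ψ p z₀ k ∂μ := by
    have a1 := hasSum_ker (μ := μ) (W := ℂ) hP.cont hP.le p h2 h1 (F := fun _ => (1 : ℂ))
      continuous_const
    have a2 := hasSum_ker (μ := μ) (W := ℂ) hψ hψ1 p h2 h1 (F := fun _ => (1 : ℂ))
      continuous_const
    simp only [smul_eq_mul, mul_one] at a1 a2
    simp only [h] at a2
    exact a1.unique a2
  have h5 : ‖Z μ φ p z₀‖ ≤ C * μ.real Set.univ := by
    rw [e1]
    exact norm_integral_le_of_norm_le_const (Eventually.of_forall fun k => hC z₀ h2 h1 k)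
  linarith

/-- (L3) and (L3'), abstract form -/
theorem Peak.eq_zero' (hP : Peak μ φ p) {F G : K → W} {χ : K → ℂ} (hF : Continuous F)
    (hG : Continuous G) (hχ : Continuous χ) {w : W} (h : ∀ k, φ k = 1 → F k = w)
    (hGz : ∀ k, φ k = 1 → G k = 0)
    (hG' : ∀ e : ℝ, 0 < e → ∃ d : ℝ, 0 < d ∧ ∀ k, 1 - (φ k).re < d →
      ‖χ k‖ * ‖G k‖ ≤ e * (1 - (φ k).re))
    (L : W →ₗ[ℂ] W)
    (hL : ∀ d : ℕ, L (∫ k, φ k ^ d • G k ∂μ)
      = ∫ k, (((d : ℂ) * φ k ^ (d - 1) * χ k) • G k + φ k ^ d • F k) ∂μ) : w = 0 := by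
  have : ProperSpace W := FiniteDimensional.proper ℂ W
  have : CompleteSpace W := FiniteDimensional.complete ℂ W
  have hC0 : ∀ k, 0 ≤ 1 - (φ k).re := fun k => by linarith [re_le hP.le k]
  -- `H z = (p+1) z (1 - z φ)⁻¹ χ G + F`
  set H : ℝ → K → W := fun z k =>
    ((((p : ℂ) + 1) * z * (1 - (z : ℂ) * φ k)⁻¹ * χ k) • G k + F k) with hH
  have hHc : ∀ z : ℝ, 0 ≤ z → z < 1 → Continuous (H z) := by
    intro z hz0 hz
    have hi : Continuous fun k => (1 - (z : ℂ) * φ k)⁻¹ :=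
      Continuous.inv₀ (by have := hP.cont; fun_prop) fun k => sub_ne hP.le k hz0 hz
    exact (((continuous_const.mul hi).mul hχ).smul hG).add hF
  -- the two Laplace means
  obtain ⟨CG, hCG⟩ := exists_bound hG
  obtain ⟨CF, hCF⟩ := exists_bound hF
  have avgG := avg hP (fun _ => G) (0 : W) (fun _ _ _ => hG) (fun e he => by
    obtain ⟨d, hd, h1⟩ := near hP hG hGz he
    exact ⟨d, hd, CG, fun z _ _ k => ⟨h1 k, fun _ => by rw [sub_zero]; exact hCG k⟩⟩)
  have avgH := avg hP H w hHc (fun e he => by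
    obtain ⟨d₁, hd₁, h1⟩ := near hP hF h (half_pos he)
    -- the first summand is at most `e / 2` near `{φ = 1}`
    set A : ℝ := 2 * ((p : ℝ) + 1) with hA
    have hA0 : 0 < A := by positivity
    set e' : ℝ := e / 2 / A with he'
    have he'0 : 0 < e' := by positivity
    obtain ⟨d₂, hd₂, h2⟩ := hG' e' he'0
    have hmain : ∀ z : ℝ, 1 / 2 ≤ z → z < 1 → ∀ k,
        ‖(((p : ℂ) + 1) * z * (1 - (z : ℂ) * φ k)⁻¹ * χ k) • G k‖ * (1 - (φ k).re)
          ≤ A * (‖χ k‖ * ‖G k‖) := by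
      intro z hz2 hz k
      have a1 := inv_le hP.le k hz2 hz
      have a2 : ‖((p : ℂ) + 1)‖ = (p : ℝ) + 1 := by
        have : ((p : ℂ) + 1) = (((p : ℝ) + 1 : ℝ) : ℂ) := by push_cast; rfl
        rw [this, Complex.norm_real, Real.norm_of_nonneg (by positivity)]
      rw [norm_smul, norm_mul, norm_mul, norm_mul, a2, Complex.norm_real,
        Real.norm_of_nonneg (by linarith : (0 : ℝ) ≤ z)]
      have a3 : 0 ≤ ((p : ℝ) + 1) * (‖χ k‖ * ‖G k‖) := by positivity
      have a4 : 0 ≤ ‖(1 - (z : ℂ) * φ k)⁻¹‖ * (1 - (φ k).re) :=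
        mul_nonneg (norm_nonneg _) (hC0 k)
      calc ((p : ℝ) + 1) * z * ‖(1 - (z : ℂ) * φ k)⁻¹‖ * ‖χ k‖ * ‖G k‖ * (1 - (φ k).re)
          = (((p : ℝ) + 1) * (‖χ k‖ * ‖G k‖)) * (z * (‖(1 - (z : ℂ) * φ k)⁻¹‖
              * (1 - (φ k).re))) := by ring
        _ ≤ (((p : ℝ) + 1) * (‖χ k‖ * ‖G k‖)) * (1 * 2) := by
            refine mul_le_mul_of_nonneg_left ?_ a3
            exact mul_le_mul hz.le a1 a4 zero_le_one
        _ = A * (‖χ k‖ * ‖G k‖) := by rw [hA]; ring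
    obtain ⟨Cχ, hCχ⟩ := exists_bound hχ
    set d := min d₁ d₂ with hd
    have hd0 : 0 < d := lt_min hd₁ hd₂
    refine ⟨d, hd0, A * (Cχ * CG) / d + (CF + ‖w‖), fun z hz2 hz k => ⟨fun hk => ?_, fun hk => ?_⟩⟩
    · have b1 := h1 k (hk.trans_le (min_le_left _ _))
      have b2 := h2 k (hk.trans_le (min_le_right _ _))
      have b3 : ‖(((p : ℂ) + 1) * z * (1 - (z : ℂ) * φ k)⁻¹ * χ k) • G k‖ ≤ e / 2 := by
        rcases (hC0 k).eq_or_lt with h0 | h0
        · have : G k = 0 := hGz k (eq_one hP.le (by linarith))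
          rw [this, smul_zero, norm_zero]
          linarith
        · have c1 := hmain z hz2 hz k
          have c5 : A * (‖χ k‖ * ‖G k‖) ≤ e / 2 * (1 - (φ k).re) := by
            calc A * (‖χ k‖ * ‖G k‖) ≤ A * (e' * (1 - (φ k).re)) :=
                  mul_le_mul_of_nonneg_left b2 hA0.le
              _ = e / 2 * (1 - (φ k).re) := by
                  rw [he']
                  field_simp
          exact le_of_mul_le_mul_right (c1.trans c5) h0
      calc ‖H z k - w‖ = ‖(((p : ℂ) + 1) * z * (1 - (z : ℂ) * φ k)⁻¹ * χ k) • G k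
            + (F k - w)‖ := by rw [hH]; congr 1; simp only; abel
        _ ≤ e / 2 + e / 2 := (norm_add_le _ _).trans (add_le_add b3 b1)
        _ = e := by ring
    · have c1 := hmain z hz2 hz k
      have h0 : 0 < 1 - (φ k).re := hd0.trans_le hk
      have c2 : ‖χ k‖ * ‖G k‖ ≤ Cχ * CG :=
        mul_le_mul (hCχ k) (hCG k) (norm_nonneg _) ((norm_nonneg _).trans (hCχ k))
      have c3 : ‖(((p : ℂ) + 1) * z * (1 - (z : ℂ) * φ k)⁻¹ * χ k) • G k‖
          ≤ A * (Cχ * CG) / d := by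
        rw [le_div_iff₀ hd0]
        refine le_trans (mul_le_mul_of_nonneg_left hk (norm_nonneg _)) (c1.trans ?_)
        exact mul_le_mul_of_nonneg_left c2 hA0.le
      calc ‖H z k - w‖ = ‖(((p : ℂ) + 1) * z * (1 - (z : ℂ) * φ k)⁻¹ * χ k) • G k
            + (F k - w)‖ := by rw [hH]; congr 1; simp only; abel
        _ ≤ A * (Cχ * CG) / d + (CF + ‖w‖) := (norm_add_le _ _).trans
            (add_le_add c3 ((norm_sub_le _ _).trans (by linarith [hCF k]))))
  -- the linear map intertwines the two means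
  have key : ∀ z : ℝ, 0 ≤ z → z < 1 →
      L (∫ k, lker φ p z k • G k ∂μ) = ∫ k, lker φ p z k • H z k ∂μ := by
    intro z hz0 hz
    have hck := cont_ker hP.cont hP.le p hz0 hz
    have s1 := (hasSum_ker hP.cont hP.le p hz0 hz hG (μ := μ)).mapL
      (LinearMap.toContinuousLinearMap L)
    have s2 := hasSum_ker hP.cont hP.le p hz0 hz hF (μ := μ)
    have s3 := hasSum_ker hP.cont hP.le (p + 1) hz0 hz (hχ.smul hG) (μ := μ)
    -- shift of the third series
    have s4 : HasSum (fun d : ℕ => (((d + p).choose p : ℂ) * (z : ℂ) ^ d)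
        • ∫ k, ((d : ℂ) * φ k ^ (d - 1) * χ k) • G k ∂μ)
        ((((p : ℂ) + 1) * z) • ∫ k, lker φ (p + 1) z k • (χ k • G k) ∂μ) := by
      rw [← hasSum_nat_add_iff' 1]
      simp only [Finset.range_one, Finset.sum_singleton, Nat.cast_zero, zero_mul, zero_smul,
        integral_zero, smul_zero, sub_zero]
      refine (s3.const_smul (((p : ℂ) + 1) * z)).congr_fun ?_
      intro d
      have c1 : ∫ k, (((d + 1 : ℕ) : ℂ) * φ k ^ (d + 1 - 1) * χ k) • G k ∂μ
          = ((d + 1 : ℕ) : ℂ) • ∫ k, φ k ^ d • (χ k • G k) ∂μ := by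
        rw [← integral_smul]
        refine integral_congr_ae (Eventually.of_forall fun k => ?_)
        simp only [smul_smul, Nat.add_sub_cancel, mul_assoc]
      rw [c1, smul_smul, smul_smul]
      congr 1
      have c2 : ((d + 1 + p).choose p) * (d + 1) = (d + (p + 1)).choose (p + 1) * (p + 1) := by
        have := Nat.choose_succ_right_eq (d + 1 + p) p
        rw [show d + (p + 1) = d + 1 + p by omega, this]
        congr 1
        omega
      have c3 : (((d + 1 + p).choose p : ℕ) : ℂ) * ((d : ℂ) + 1)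
          = (((d + (p + 1)).choose (p + 1) : ℕ) : ℂ) * ((p : ℂ) + 1) := by exact_mod_cast c2
      push_cast
      rw [pow_succ]
      linear_combination ((z : ℂ) ^ d * z) * c3
    have s5 := s4.add s2
    have e1 : (fun d : ℕ => (LinearMap.toContinuousLinearMap L)
        ((((d + p).choose p : ℂ) * (z : ℂ) ^ d) • ∫ k, φ k ^ d • G k ∂μ))
        = fun d : ℕ => (((d + p).choose p : ℂ) * (z : ℂ) ^ d)
          • ∫ k, ((d : ℂ) * φ k ^ (d - 1) * χ k) • G k ∂μ
          + (((d + p).choose p : ℂ) * (z : ℂ) ^ d) • ∫ k, φ k ^ d • F k ∂μ := by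
      funext d
      rw [map_smul, LinearMap.coe_toContinuousLinearMap', hL d, ← smul_add]
      congr 1
      refine integral_add (integrable_of_cont ?_) (integrable_of_cont ?_)
      · have := hP.cont
        fun_prop
      · have := hP.cont
        fun_prop
    rw [e1] at s1
    have s6 := s1.unique s5
    rw [LinearMap.coe_toContinuousLinearMap'] at s6
    rw [s6, ← integral_smul, ← integral_add]
    · refine integral_congr_ae (Eventually.of_forall fun k => ?_)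
      simp only [hH, smul_add, smul_smul, ker_succ]
      congr 2
      ring
    · refine integrable_of_cont ?_
      have := cont_ker hP.cont hP.le (p + 1) hz0 hz
      fun_prop
    · exact integrable_of_cont (hck.smul hF)
  -- conclusion
  set Lc := LinearMap.toContinuousLinearMap L with hLc
  have hw : ∀ e : ℝ, 0 < e → ‖w‖ ≤ (‖Lc‖ + 1) * e := by
    intro e he
    obtain ⟨z₁, a1, a2, a3⟩ := avgG e he
    obtain ⟨z₂, b1, b2, b3⟩ := avgH e he
    have h1 := a3 (max z₁ z₂) (le_max_left _ _) (max_lt a1 b1)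
    have h2 := b3 (max z₁ z₂) (le_max_right _ _) (max_lt a1 b1)
    rw [sub_zero] at h1
    have h3 : (Z μ φ p (max z₁ z₂))⁻¹ • (∫ k, lker φ p (max z₁ z₂) k • H (max z₁ z₂) k ∂μ)
        = Lc ((Z μ φ p (max z₁ z₂))⁻¹ • (∫ k, lker φ p (max z₁ z₂) k • G k ∂μ)) := by
      rw [← key _ (le_max_of_le_left a2) (max_lt a1 b1), map_smul]
      rfl
    rw [h3] at h2
    have h4 := (Lc.le_opNorm ((Z μ φ p (max z₁ z₂))⁻¹
      • (∫ k, lker φ p (max z₁ z₂) k • G k ∂μ))).trans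
      (mul_le_mul_of_nonneg_left h1 (norm_nonneg _))
    have h5 := norm_le_norm_sub_add (Lc ((Z μ φ p (max z₁ z₂))⁻¹
      • (∫ k, lker φ p (max z₁ z₂) k • G k ∂μ))) w
    have h6 : ‖w‖ ≤ ‖Lc ((Z μ φ p (max z₁ z₂))⁻¹
      • (∫ k, lker φ p (max z₁ z₂) k • G k ∂μ)) - w‖ + ‖Lc ((Z μ φ p (max z₁ z₂))⁻¹
      • (∫ k, lker φ p (max z₁ z₂) k • G k ∂μ))‖ := by
      rw [norm_sub_rev]
      exact norm_le_norm_sub_add _ _
    nlinarith
  by_contra hne
  have hpos : 0 < ‖w‖ := norm_pos_iff.2 hne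
  have hq : 0 < ‖Lc‖ + 1 := by positivity
  have := hw (‖w‖ / (2 * (‖Lc‖ + 1))) (by positivity)
  have e1 : (‖Lc‖ + 1) * (‖w‖ / (2 * (‖Lc‖ + 1))) = ‖w‖ / 2 := by
    field_simp
  rw [e1] at this
  linarith

/-- (L3), abstract form -/
theorem Peak.eq_zero (hP : Peak μ φ p) {F G : K → W} {χ : K → ℂ} (hF : Continuous F)
    (hG : Continuous G) (hχ : Continuous χ) {w : W} (h : ∀ k, φ k = 1 → F k = w)
    {C : ℝ} (hχ' : ∀ k, ‖χ k‖ ^ 2 ≤ C * (1 - (φ k).re))
    (hG' : ∀ e : ℝ, 0 < e → ∃ d : ℝ, 0 < d ∧ ∀ k, 1 - (φ k).re < d →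
      ‖G k‖ ^ 2 ≤ e * (1 - (φ k).re))
    (L : W →ₗ[ℂ] W)
    (hL : ∀ d : ℕ, L (∫ k, φ k ^ d • G k ∂μ)
      = ∫ k, (((d : ℂ) * φ k ^ (d - 1) * χ k) • G k + φ k ^ d • F k) ∂μ) : w = 0 := by
  refine hP.eq_zero' hF hG hχ h ?_ ?_ L hL
  · intro k hk
    obtain ⟨d, hd, h1⟩ := hG' 1 one_pos
    have h2 := h1 k (by rw [hk, Complex.one_re, sub_self]; exact hd)
    rw [hk, Complex.one_re, sub_self, mul_zero] at h2
    have h3 : ‖G k‖ ^ 2 = 0 := le_antisymm h2 (by positivity)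
    exact norm_eq_zero.1 (pow_eq_zero_iff two_ne_zero |>.1 h3)
  · intro e he
    obtain ⟨d, hd, h1⟩ := hG' (e ^ 2 / (|C| + 1)) (by positivity)
    refine ⟨d, hd, fun k hk => ?_⟩
    have h0 : 0 ≤ 1 - (φ k).re := by linarith [re_le hP.le k]
    have h2 := h1 k hk
    have h3 : ‖χ k‖ ^ 2 ≤ (|C| + 1) * (1 - (φ k).re) :=
      (hχ' k).trans (mul_le_mul_of_nonneg_right (by linarith [le_abs_self C]) h0)
    have h4 : (‖χ k‖ * ‖G k‖) ^ 2 ≤ (e * (1 - (φ k).re)) ^ 2 := by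
      calc (‖χ k‖ * ‖G k‖) ^ 2 = ‖χ k‖ ^ 2 * ‖G k‖ ^ 2 := by ring
        _ ≤ ((|C| + 1) * (1 - (φ k).re)) * (e ^ 2 / (|C| + 1) * (1 - (φ k).re)) :=
            mul_le_mul h3 h2 (by positivity) (by positivity)
        _ = (e * (1 - (φ k).re)) ^ 2 := by
            field_simp
    exact (pow_le_pow_iff_left₀ (by positivity) (by positivity) two_ne_zero).1 h4

end Pool.Agent.Lib.MP_361a6f_ag.RR
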