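import Mathlib

/-!
# Volume of small balls in a compact group (helper85)

`K` is a compact group (in fact only a left invariant probability measure is used) and `i : K → F` a
bounded map into a finite dimensional real normed space with
`‖i (g * k) - i (g * k')‖ = ‖i k - i k'‖`.  Then the ball of radius `r` about `1` has measure at least
`c * r ^ m`, `m = dim F`.
-/

open MeasureTheory Set Metric

namespace Pool.Agent.RR

section Pack

variable {F : Type*} [NormedAddCommGroup F] [NormedSpace ℝ F] [FiniteDimensional ℝ F]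

/-- packing bound -/
theorem pack_bound {K : Type*} (i : K → F) {R : ℝ} (hR : 0 ≤ R) (hb : ∀ k, ‖i k‖ ≤ R) {r : ℝ} (hr : 0 < r)
    (hr1 : r ≤ 1) (S : Finset K) (hS : ∀ k ∈ S, ∀ k' ∈ S, k ≠ k' → r ≤ ‖i k - i k'‖) :
    (S.card : ℝ) * r ^ Module.finrank ℝ F ≤ (2 * (R + 1)) ^ Module.finrank ℝ F := by
  classical
  borelize F
  set m := Module.finrank ℝ F with hm
  let ν : Measure F := Measure.addHaar
  have hdis : Pairwise (Function.onFun Disjoint (fun k : S => ball (i k.1) (r / 2))) := by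
    intro k k' hkk'
    have h1 : k.1 ≠ k'.1 := fun h => hkk' (Subtype.ext h)
    have h2 := hS k.1 k.2 k'.1 k'.2 h1
    refine Set.disjoint_left.2 fun x hx hx' => ?_
    rw [mem_ball, dist_eq_norm] at hx hx'
    have h3 : ‖i k.1 - i k'.1‖ ≤ ‖x - i k.1‖ + ‖x - i k'.1‖ := by
      have : i k.1 - i k'.1 = (x - i k'.1) - (x - i k.1) := by abel
      rw [this]
      refine (norm_sub_le _ _).trans (by linarith)
    linarith
  have hsub : (⋃ k : S, ball (i k.1) (r / 2)) ⊆ ball (0 : F) (R + 1) := by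
    intro x hx
    obtain ⟨k, hk⟩ := mem_iUnion.1 hx
    rw [mem_ball, dist_eq_norm] at hk
    rw [mem_ball_zero_iff]
    have h4 : ‖x‖ ≤ ‖x - i k.1‖ + ‖i k.1‖ := by
      have : x = (x - i k.1) + i k.1 := by abel
      calc ‖x‖ = ‖(x - i k.1) + i k.1‖ := by rw [← this]
        _ ≤ _ := norm_add_le _ _
    have h5 := hb k.1
    linarith
  have h6 : ν (⋃ k : S, ball (i k.1) (r / 2)) = ∑ k : S, ν (ball (i k.1) (r / 2)) := by
    rw [measure_iUnion hdis (fun k => measurableSet_ball), tsum_fintype]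
  have h7 : ∀ k : S, ν (ball (i k.1) (r / 2)) = ENNReal.ofReal ((r / 2) ^ m) * ν (ball (0 : F) 1) := by
    intro k
    rw [Measure.addHaar_ball_of_pos ν _ (by positivity)]
  have h8 : ν (ball (0 : F) (R + 1)) = ENNReal.ofReal ((R + 1) ^ m) * ν (ball (0 : F) 1) := by
    rw [Measure.addHaar_ball_of_pos ν _ (by positivity)]
  have h9 : (S.card : ENNReal) * (ENNReal.ofReal ((r / 2) ^ m) * ν (ball (0 : F) 1)) ≤
      ENNReal.ofReal ((R + 1) ^ m) * ν (ball (0 : F) 1) := by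
    rw [← h8]
    refine le_trans (le_of_eq ?_) (measure_mono hsub)
    rw [h6]
    simp only [h7]
    rw [Finset.sum_const, Finset.card_univ, Fintype.card_coe, nsmul_eq_mul]
  have hpos : ν (ball (0 : F) 1) ≠ 0 := (measure_ball_pos ν _ one_pos).ne'
  have hfin : ν (ball (0 : F) 1) ≠ ⊤ := measure_ball_lt_top.ne
  rw [← mul_assoc] at h9
  have h10 := (ENNReal.mul_le_mul_iff_left hpos hfin).1 h9
  have h11 : (S.card : ENNReal) = ENNReal.ofReal (S.card : ℝ) := by simp
  rw [h11, ← ENNReal.ofReal_mul (by positivity)] at h10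
  have h12 := (ENNReal.ofReal_le_ofReal_iff (by positivity)).1 h10
  have h13 : (S.card : ℝ) * r ^ m = (S.card : ℝ) * (r / 2) ^ m * 2 ^ m := by
    rw [div_pow]; field_simp
  rw [h13]
  calc (S.card : ℝ) * (r / 2) ^ m * 2 ^ m ≤ (R + 1) ^ m * 2 ^ m := by gcongr
    _ = (2 * (R + 1)) ^ m := by rw [mul_pow]; ring

omit [NormedSpace ℝ F] [FiniteDimensional ℝ F] in
/-- greedy covering -/
theorem greedy {K : Type*} (i : K → F) {r : ℝ} (hr : 0 < r) (n : ℕ) :
    (∃ S : Finset K, S.card = n ∧ ∀ k ∈ S, ∀ k' ∈ S, k ≠ k' → r ≤ ‖i k - i k'‖) ∨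
    (∃ S : Finset K, (∀ k ∈ S, ∀ k' ∈ S, k ≠ k' → r ≤ ‖i k - i k'‖) ∧
      ∀ k, ∃ k' ∈ S, ‖i k - i k'‖ < r) := by
  classical
  induction n with
  | zero => exact Or.inl ⟨∅, rfl, by simp⟩
  | succ n ih =>
    rcases ih with ⟨S, hS, hsep⟩ | ⟨S, hsep, hcov⟩
    · by_cases hc : ∀ k, ∃ k' ∈ S, ‖i k - i k'‖ < r
      · exact Or.inr ⟨S, hsep, hc⟩
      · push Not at hc
        obtain ⟨k, hk⟩ := hc
        have hkS : k ∉ S := by
          intro hkS
          have h0 : r ≤ 0 := by simpa using hk k hkS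
          linarith
        refine Or.inl ⟨insert k S, by rw [Finset.card_insert_of_notMem hkS, hS], ?_⟩
        intro a ha b hb hab
        rcases Finset.mem_insert.1 ha with h1 | h1
        · rcases Finset.mem_insert.1 hb with h2 | h2
          · exact absurd (h1.trans h2.symm) hab
          · rw [h1]; exact hk b h2
        · rcases Finset.mem_insert.1 hb with h2 | h2
          · rw [norm_sub_rev, h2]; exact hk a h1
          · exact hsep a h1 b h2 hab
    · exact Or.inr ⟨S, hsep, hcov⟩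

/-- a finite `r`-net with few points -/
theorem net {K : Type*} (i : K → F) {R : ℝ} (hR : 0 ≤ R) (hb : ∀ k, ‖i k‖ ≤ R) {r : ℝ} (hr : 0 < r)
    (hr1 : r ≤ 1) : ∃ S : Finset K,
      (S.card : ℝ) * r ^ Module.finrank ℝ F ≤ (2 * (R + 1)) ^ Module.finrank ℝ F ∧
      ∀ k, ∃ k' ∈ S, ‖i k - i k'‖ < r := by
  obtain ⟨n, hn⟩ := exists_nat_gt ((2 * (R + 1)) ^ Module.finrank ℝ F / r ^ Module.finrank ℝ F)
  rcases greedy i hr n with ⟨S, hS, hsep⟩ | ⟨S, hsep, hcov⟩
  · exfalso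
    have h1 := pack_bound i hR hb hr hr1 S hsep
    rw [div_lt_iff₀ (by positivity), ← hS] at hn
    linarith
  · exact ⟨S, pack_bound i hR hb hr hr1 S hsep, hcov⟩

/-- **Volume of small balls.** -/
theorem vol_ball {K : Type*} [Group K] [MeasurableSpace K] [MeasurableMul K] (μ : Measure K)
    [IsProbabilityMeasure μ] [μ.IsMulLeftInvariant] (i : K → F) {R : ℝ} (hb : ∀ k, ‖i k‖ ≤ R)
    (hinv : ∀ g k k', ‖i (g * k) - i (g * k')‖ = ‖i k - i k'‖) :
    ∃ c : ℝ, 0 < c ∧ ∀ r : ℝ, 0 < r → r ≤ 1 →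
      c * r ^ Module.finrank ℝ F ≤ μ.real {k | ‖i k - i 1‖ < r} := by
  classical
  have hR : 0 ≤ R := (norm_nonneg _).trans (hb 1)
  refine ⟨((2 * (R + 1)) ^ Module.finrank ℝ F)⁻¹, by positivity, fun r hr hr1 => ?_⟩
  obtain ⟨S, hS, hcov⟩ := net i hR hb hr hr1
  set B : Set K := {k | ‖i k - i 1‖ < r} with hB
  have h1 : (univ : Set K) ⊆ ⋃ k' ∈ S, (fun h => k'⁻¹ * h) ⁻¹' B := by
    intro k _
    obtain ⟨k', hk', hlt⟩ := hcov k
    refine mem_biUnion hk' ?_
    have := hinv k'⁻¹ k k'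
    rw [inv_mul_cancel] at this
    change ‖i (k'⁻¹ * k) - i 1‖ < r
    rw [this]
    exact hlt
  have h2 : (1 : ENNReal) ≤ ∑ k' ∈ S, μ ((fun h => k'⁻¹ * h) ⁻¹' B) := by
    calc (1 : ENNReal) = μ univ := measure_univ.symm
      _ ≤ μ (⋃ k' ∈ S, (fun h => k'⁻¹ * h) ⁻¹' B) := measure_mono h1
      _ ≤ _ := measure_biUnion_finset_le _ _
  simp only [measure_preimage_mul] at h2
  rw [Finset.sum_const, nsmul_eq_mul] at h2
  have h3 : (1 : ℝ) ≤ (S.card : ℝ) * μ.real B := by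
    have h4 : ENNReal.toReal 1 ≤ ((S.card : ENNReal) * μ B).toReal :=
      ENNReal.toReal_mono (ENNReal.mul_ne_top (by simp) (measure_ne_top μ B)) h2
    rw [ENNReal.toReal_mul] at h4
    simpa [Measure.real] using h4
  have h5 : 0 ≤ μ.real B := measureReal_nonneg
  have h6 : 0 < (2 * (R + 1)) ^ Module.finrank ℝ F := by positivity
  rw [inv_mul_le_iff₀ h6]
  calc r ^ Module.finrank ℝ F = r ^ Module.finrank ℝ F * 1 := by ring
    _ ≤ r ^ Module.finrank ℝ F * ((S.card : ℝ) * μ.real B) := by gcongr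
    _ = ((S.card : ℝ) * r ^ Module.finrank ℝ F) * μ.real B := by ring
    _ ≤ (2 * (R + 1)) ^ Module.finrank ℝ F * μ.real B := by gcongr

end Pack

end Pool.Agent.RR
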